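import Pool.Agent.X113.LA6

/-!
# Long averages of Montgomery's function and simple, isolated zeros

No hypothesis (RH is not assumed).  Let `A(T, b, R)` be the average of `F(α, T)` over `|α - b| < R`
with the Fejér weight `(1 - |α - b| / R) / R`, and let `p(T, ε)` be the proportion of the zeros with
ordinate in `(0, T]` which are multiple, or off the critical line, or not isolated: another zero has
its ordinate at distance at most `ε / log T`.

* `p(T, 1/R) ≤ (10/9) (A(T, 0, R) - 1) + C / log T` for all `R ≥ 1`, and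
  `|A(T, b, R) - 1| ≤ C (p (1 - log p) + 1 / (R ε)² + 1 / log T)`, `p = p(T, ε)`, for all `R ≥ 1`,
  `0 < ε ≤ 1` and all real `b`.
* So the long averages of `F` around `0` are at most `1 + δ` (first `T → ∞`, then `R → ∞`) if and only
  if almost all zeros are simple, on the line and isolated, and then the long averages of `F` around
  every point `b`, which may depend on `T` in any way, tend to one.
* With the limits in the other order the corresponding condition is that almost all zeros are simple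
  and on the line.
-/

open MeasureTheory Filter
open Complex (I)

namespace Pool.Agent.Results.MP_00e05b_nt.LongAveragesAndIsolatedZeros

/-- the nontrivial zeros of `ζ` with ordinate in `(0, T]` -/
def zeros (T : ℝ) : Set ℂ :=
  {s : ℂ | 0 < s.re ∧ s.re < 1 ∧ 0 < s.im ∧ s.im ≤ T ∧ riemannZeta s = 0}

/-- the multiplicity of `s` as a zero of `ζ` -/
noncomputable def mult (s : ℂ) : ℕ := analyticOrderNatAt riemannZeta s

/-- `(T / 2π) log T` -/
noncomputable def X (T : ℝ) : ℝ := T / (2 * Real.pi) * Real.log T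

/-- Montgomery's function `F(α, T)` -/
noncomputable def F (T α : ℝ) : ℂ :=
  (X T : ℂ)⁻¹ * ∑ᶠ s ∈ zeros T, ∑ᶠ s' ∈ zeros T, (mult s : ℂ) * (mult s' : ℂ) *
    ((T : ℂ) ^ (I * α * (s.im - s'.im)) * (4 / (4 + (s.im - s'.im) ^ 2)))

/-- the average of `F` over `|α - b| < R` with the weight `(1 - |α - b| / R) / R` -/
noncomputable def A (T b R : ℝ) : ℝ := ∫ α : ℝ, max 0 (1 - |α - b| / R) / R * (F T α).re

/-- the zeros which are off the line or multiple -/
def Off (T : ℝ) : Set ℂ := {s : ℂ | s ∈ zeros T ∧ (s.re ≠ 1 / 2 ∨ 2 ≤ mult s)}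

/-- the zeros which are off the line or multiple or for which the distance to the ordinate of another
zero in `zeros T` is at most `ε / log T` -/
def Bad (T ε : ℝ) : Set ℂ := {s : ℂ | s ∈ zeros T ∧ (s.re ≠ 1 / 2 ∨ 2 ≤ mult s ∨
  ∃ s' ∈ zeros T, s' ≠ s ∧ |s'.im - s.im| ≤ ε / Real.log T)}

/-- the proportion of a set `S` in the zeros with ordinate in `(0, T]`, counted with multiplicity -/
noncomputable def prop (T : ℝ) (S : Set ℂ) : ℝ :=
  (∑ᶠ s ∈ S, (mult s : ℝ)) / ∑ᶠ s ∈ zeros T, (mult s : ℝ)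

open Pool.Agent.Y749.Rig (Fr ZZ mm tr)
open Pool.Agent.X113.LA (Bd nb Md nm)
open Pool.Agent.X113.UF (NA)

lemma F_re {T : ℝ} (hT : 10 ≤ T) (α : ℝ) : (F T α).re = Fr T α := by
  have h : F T α = (Fr T α : ℂ) := Pool.Agent.Y749.Rig.P.F_eq hT α
  rw [h, Complex.ofReal_re]

lemma A_eq {T : ℝ} (hT : 10 ≤ T) (b R : ℝ) : A T b R = Pool.Agent.X113.LA.Ab T b R := by
  unfold A Pool.Agent.X113.LA.Ab
  refine integral_congr_ae (ae_of_all _ fun α => ?_)
  simp only
  rw [F_re hT]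
  rfl

lemma mem_iff {T : ℝ} {s : ℂ} : s ∈ zeros T ↔ s ∈ ZZ T := by
  have h : zeros T = ((ZZ T : Finset ℂ) : Set ℂ) := Pool.Agent.Y749.Rig.P.zeros_ZZ T
  rw [h, Finset.mem_coe]

lemma sum_zeros (T : ℝ) : ∑ᶠ s ∈ zeros T, (mult s : ℝ) = NA T := by
  have h : zeros T = ((ZZ T : Finset ℂ) : Set ℂ) := Pool.Agent.Y749.Rig.P.zeros_ZZ T
  rw [h, finsum_mem_coe_finset]
  rfl

lemma sum_Bad (T ε : ℝ) : ∑ᶠ s ∈ Bad T ε, (mult s : ℝ) = nb T ε := by
  classical
  have h : Bad T ε = ((Bd T ε : Finset ℂ) : Set ℂ) := by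
    ext s
    unfold Bd
    rw [Finset.mem_coe, Finset.mem_filter, ← mem_iff]
    constructor
    · rintro ⟨h1, h2⟩
      refine ⟨h1, ?_⟩
      rcases h2 with h | h | ⟨s', h3, h4⟩
      · exact Or.inl h
      · exact Or.inr (Or.inl h)
      · exact Or.inr (Or.inr ⟨s', mem_iff.1 h3, h4⟩)
    · rintro ⟨h1, h2⟩
      refine ⟨h1, ?_⟩
      rcases h2 with h | h | ⟨s', h3, h4⟩
      · exact Or.inl h
      · exact Or.inr (Or.inl h)
      · exact Or.inr (Or.inr ⟨s', mem_iff.2 h3, h4⟩)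
  rw [h, finsum_mem_coe_finset]
  rfl

lemma sum_Off (T : ℝ) : ∑ᶠ s ∈ Off T, (mult s : ℝ) = nm T := by
  classical
  have h : Off T = ((Md T : Finset ℂ) : Set ℂ) := by
    ext s
    unfold Md
    rw [Finset.mem_coe, Finset.mem_filter, ← mem_iff]
    exact Iff.rfl
  rw [h, finsum_mem_coe_finset]
  rfl

/-- **Long averages of `F` and simple, isolated zeros.** -/
theorem result :
    (∃ C T₀ : ℝ, ∀ T : ℝ, T₀ ≤ T → ∀ R : ℝ, 1 ≤ R →
      prop T (Bad T (1 / R)) ≤ 10 / 9 * (A T 0 R - 1) + C / Real.log T ∧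
      ∀ ε b : ℝ, 0 < ε → ε ≤ 1 → |A T b R - 1| ≤ C * (prop T (Bad T ε) *
        (1 - Real.log (prop T (Bad T ε))) + 1 / (R * ε) ^ 2 + 1 / Real.log T)) ∧
    ∀ l : Filter ℝ, l ≤ atTop →
      [∀ δ : ℝ, 0 < δ → ∃ ε : ℝ, 0 < ε ∧ ∀ᶠ T in l, prop T (Bad T ε) ≤ δ,
        ∀ δ : ℝ, 0 < δ → ∃ R : ℝ, 1 ≤ R ∧ ∀ᶠ T in l, A T 0 R ≤ 1 + δ,
        ∀ δ : ℝ, 0 < δ → ∃ R₀ : ℝ, ∀ᶠ T in l, ∀ R b : ℝ, R₀ ≤ R → |A T b R - 1| ≤ δ].TFAE ∧
      [∀ δ : ℝ, 0 < δ → ∀ᶠ T in l, prop T (Off T) ≤ δ,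
        ∀ δ : ℝ, 0 < δ → ∀ᶠ T in l, ∃ R : ℝ, 1 ≤ R ∧ A T 0 R ≤ 1 + δ,
        ∀ δ : ℝ, 0 < δ → ∀ᶠ T in l, ∃ R₀ : ℝ, ∀ R b : ℝ, R₀ ≤ R → |A T b R - 1| ≤ δ].TFAE := by
  obtain ⟨C0, T0, hC0, hT0, h0⟩ := Pool.Agent.X113.LA.NA_near
  have hNA : ∀ T : ℝ, T0 ≤ T → 0 < NA T := fun T hT => by
    have := Pool.Agent.Y749.Rig.nT_pos (hT0.trans hT)
    linarith [(h0 T hT).2.1]
  constructor
  · obtain ⟨C1, T1, hC1, hT1, h1⟩ := Pool.Agent.X113.LA.low2
    obtain ⟨C2, T2, hC2, hT2, h2⟩ := Pool.Agent.X113.LA.up3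
    refine ⟨max C1 C2, max T1 T2, fun T hT R hR => ?_⟩
    have hTa : T1 ≤ T := (le_max_left _ _).trans hT
    have hTb : T2 ≤ T := (le_max_right _ _).trans hT
    have hT10 : 10 ≤ T := hT1.trans hTa
    have hL : 0 < Real.log T := Real.log_pos (by linarith)
    constructor
    · unfold prop
      rw [sum_Bad, sum_zeros, A_eq hT10]
      refine (h1 T hTa R hR).trans ?_
      have : C1 / Real.log T ≤ max C1 C2 / Real.log T :=
        div_le_div_of_nonneg_right (le_max_left _ _) hL.le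
      linarith
    · intro ε b hε hε1
      unfold prop
      rw [sum_Bad, sum_zeros, A_eq hT10]
      refine (h2 T hTb R hR ε hε hε1 b).trans ?_
      apply mul_le_mul_of_nonneg_right (le_max_right _ _)
      have hq0 : 0 ≤ nb T ε / NA T := div_nonneg (Pool.Agent.X113.LA.nb_nonneg _ _)
        (Finset.sum_nonneg fun s _ => Pool.Agent.Y749.Rig.mm_nonneg s)
      have hq1 : nb T ε / NA T ≤ 1 :=
        div_le_one_of_le₀ (Pool.Agent.X113.LA.nb_le _ _)
          (Finset.sum_nonneg fun s _ => Pool.Agent.Y749.Rig.mm_nonneg s)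
      have h3 : Real.log (nb T ε / NA T) ≤ 0 := Real.log_nonpos hq0 hq1
      have h4 : 0 ≤ nb T ε / NA T * (1 - Real.log (nb T ε / NA T)) :=
        mul_nonneg hq0 (by linarith)
      positivity
  intro l hl
  have g1 := hl (eventually_ge_atTop T0)
  have g2 := hl (eventually_ge_atTop (10 : ℝ))
  constructor
  · tfae_have 1 → 3 := by
      intro h δ hδ
      have hiso : Pool.Agent.X113.LA.Iso l := by
        intro δ' hδ'
        obtain ⟨ε, hε, h1⟩ := h δ' hδ'
        refine ⟨ε, hε, ?_⟩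
        filter_upwards [h1, g1] with T h2 h3
        unfold prop at h2
        rwa [sum_Bad, sum_zeros, div_le_iff₀ (hNA T h3)] at h2
      obtain ⟨R0, hR0, h1⟩ := Pool.Agent.X113.LA.iso_uni hl hiso hδ
      refine ⟨R0, ?_⟩
      filter_upwards [h1, g2] with T h2 h3
      intro R b hR
      rw [A_eq h3]
      exact h2 R hR b
    tfae_have 3 → 2 := by
      intro h δ hδ
      obtain ⟨R0, h1⟩ := h δ hδ
      refine ⟨max 1 R0, le_max_left _ _, ?_⟩
      filter_upwards [h1] with T h2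
      have := (abs_le.1 (h2 (max 1 R0) 0 (le_max_right _ _))).2
      linarith
    tfae_have 2 → 1 := by
      intro h δ hδ
      have h1 : ∀ δ : ℝ, 0 < δ → ∃ R : ℝ, 1 ≤ R ∧ ∀ᶠ T in l, Pool.Agent.X113.LA.Ab T 0 R ≤ 1 + δ := by
        intro δ' hδ'
        obtain ⟨R, hR, h2⟩ := h δ' hδ'
        refine ⟨R, hR, ?_⟩
        filter_upwards [h2, g2] with T h3 h4
        rwa [A_eq h4] at h3
      obtain ⟨ε, hε, h2⟩ := Pool.Agent.X113.LA.one_iso hl h1 δ hδ
      refine ⟨ε, hε, ?_⟩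
      filter_upwards [h2, g1] with T h3 h4
      unfold prop
      rwa [sum_Bad, sum_zeros, div_le_iff₀ (hNA T h4)]
    tfae_finish
  · tfae_have 1 → 3 := by
      intro h δ hδ
      have h1 : ∀ δ : ℝ, 0 < δ → ∀ᶠ T in l, nm T ≤ δ * NA T := by
        intro δ' hδ'
        filter_upwards [h δ' hδ', g1] with T h2 h3
        unfold prop at h2
        rwa [sum_Off, sum_zeros, div_le_iff₀ (hNA T h3)] at h2
      filter_upwards [Pool.Agent.X113.LA.sc_uni hl h1 hδ, g2] with T h2 h3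
      obtain ⟨R0, hR0, h4⟩ := h2
      refine ⟨R0, fun R b hR => ?_⟩
      rw [A_eq h3]
      exact h4 R hR b
    tfae_have 3 → 2 := by
      intro h δ hδ
      filter_upwards [h δ hδ] with T h1
      obtain ⟨R0, h2⟩ := h1
      refine ⟨max 1 R0, le_max_left _ _, ?_⟩
      have := (abs_le.1 (h2 (max 1 R0) 0 (le_max_right _ _))).2
      linarith
    tfae_have 2 → 1 := by
      intro h δ hδ
      have h1 : ∀ δ : ℝ, 0 < δ → ∀ᶠ T in l, ∃ R : ℝ, 1 ≤ R ∧
          Pool.Agent.X113.LA.Ab T 0 R ≤ 1 + δ := by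
        intro δ' hδ'
        filter_upwards [h δ' hδ', g2] with T h2 h3
        obtain ⟨R, hR, h4⟩ := h2
        refine ⟨R, hR, ?_⟩
        rwa [A_eq h3] at h4
      filter_upwards [Pool.Agent.X113.LA.one_sc hl h1 hδ, g1] with T h3 h4
      unfold prop
      rwa [sum_Off, sum_zeros, div_le_iff₀ (hNA T h4)]
    tfae_finish

end Pool.Agent.Results.MP_00e05b_nt.LongAveragesAndIsolatedZeros
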