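import Pool.Agent.X112.GS.Pairs
import Pool.Agent.X112.GS.Nc

/-!
Pairs of zeros of zeta at a large normalised distance `λ`: the difference of the indices of the two
zeros is spread over a range of exact order `√(log λ)` around `λ`.  Unconditional.

Idea of the proof.  The difference of the unfolded ordinates with indices `n` and `n + r` is
`r + G √(log r) / π` with `G` asymptotically Gaussian (Selberg, Fujii; in the library in the form of
the two one-sided bounds for the distribution function).  A finite grid makes the bound for short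
intervals uniform in the position of the interval, which gives a bound for the concentration function
of the sums of `r` consecutive gaps.  At a distance near `λ` only the indices `r` in `[λ/2, 2λ]`
matter by monotonicity, and for these the concentration function is small.
-/

set_option autoImplicit false

open Filter

namespace Pool.Agent.Results.MP_00e05b_nt.PairsSpread

/-- multiplicity of `s` as a zero of the Riemann zeta function (order of vanishing at `s`) -/
noncomputable def zmult (s : ℂ) : ℕ := analyticOrderNatAt riemannZeta s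

/-- the number of nontrivial zeros of `ζ` with ordinate in `(0, t]`, with multiplicity -/
noncomputable def NZ (t : ℝ) : ℕ :=
  ∑ᶠ s ∈ {s : ℂ | riemannZeta s = 0 ∧ 0 < s.re ∧ s.re < 1 ∧ 0 < s.im ∧ s.im ≤ t}, zmult s

/-- for `n ≥ 1`: the `n`-th positive ordinate `γ n` of a nontrivial zero of `ζ`, the ordinates being
listed in nondecreasing order and repeated according to multiplicity -/
noncomputable def γ (n : ℕ) : ℝ := sInf {t : ℝ | n ≤ NZ t}

/-- the normalised distance `(γ_{n+r} - γ_n) / 2π · log (γ_n / 2π)` of two ordinates -/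
noncomputable def dist (r n : ℕ) : ℝ :=
  (γ (n + r) - γ n) / (2 * Real.pi) * Real.log (γ n / (2 * Real.pi))

/-- Unconditionally, with `γ n` the ordinates of all the nontrivial zeros in the upper half-plane: for
every `θ > 0` there are `κ, A, λ₀ > 0` such that for every `λ ≥ λ₀` and all large `N`
(1) for every `r`, at most `θ N` of the `n ≤ N` have `|dist r n - λ| ≤ κ √(log λ)`;
(2) for at most `θ N` of the `n ≤ N` there is an `r` with `|dist r n - λ| ≤ √(log λ)` and
`|r - λ| > A √(log λ)`. -/
theorem result (θ : ℝ) (hθ : 0 < θ) :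
    ∃ κ A lam₀ : ℝ, 0 < κ ∧ 0 < A ∧ 0 < lam₀ ∧ ∀ lam : ℝ, lam₀ ≤ lam → ∀ᶠ N : ℕ in atTop,
      (∀ r : ℕ, ({n : ℕ | 1 ≤ n ∧ n ≤ N ∧
        |dist r n - lam| ≤ κ * Real.sqrt (Real.log lam)}.ncard : ℝ) ≤ θ * N) ∧
      ({n : ℕ | 1 ≤ n ∧ n ≤ N ∧ ∃ r : ℕ, |dist r n - lam| ≤ Real.sqrt (Real.log lam) ∧
        A * Real.sqrt (Real.log lam) < |(r : ℝ) - lam|}.ncard : ℝ) ≤ θ * N := by
  classical
  have e2 : ∀ r n, dist r n = Pool.Agent.X112.GS.dr r n := fun r n => rfl
  simp only [e2]
  obtain ⟨κ, hκ, h1⟩ := Pool.Agent.X112.GS.pairs_rare θ hθ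
  obtain ⟨A, hA, h2⟩ := Pool.Agent.X112.GS.pairs_spread θ hθ
  obtain ⟨l0, hl0⟩ := ((h1.and h2).and (eventually_gt_atTop (0 : ℝ))).exists_forall_of_atTop
  refine ⟨κ, A, l0, hκ, hA, (hl0 l0 le_rfl).2, fun lam hlam => ?_⟩
  filter_upwards [(hl0 lam hlam).1.1, (hl0 lam hlam).1.2] with N g1 g2
  refine ⟨fun r => ?_, ?_⟩
  · rw [Pool.Agent.X112.GS.nc]
    exact g1 r
  · rw [Pool.Agent.X112.GS.nc]
    exact g2 _ (fun n hn => hn)

end Pool.Agent.Results.MP_00e05b_nt.PairsSpread
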