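import Pool.Agent.X113.UH

/-!
# The upper half of the strong pair correlation conjecture implies the conjecture in the mean

Assume RH and let `0 < c < 1` (for `α ≤ 1` the value `F(α, T) = α + o(1)` is known).  Let
`(F - min(α, 1))⁺` be the positive part.

* If `∫_c^R (F(α, T) - min(α, 1))⁺ dα = o(1)` for one `R ≥ 1`, then
  `∫_c^A |F(α, T) - min(α, 1)| dα ≤ 1 / (6 (R - A)) + o(1)` for every `c < A < R`.
* `∫_c^R (F(α, T) - min(α, 1))⁺ dα = o(1)` for every `R` if and only if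
  `∫_c^R |F(α, T) - min(α, 1)| dα = o(1)` for every `R`.
* If for every `R` the upper bound `F(α, T) ≤ min(α, 1) + o(1)` holds uniformly for `c ≤ α ≤ R` (the
  upper half of the strong pair correlation conjecture), then for every `A ≥ 1` and `η > 0` the
  inequality `|F(α, T) - 1| ≤ η` holds for all `1 ≤ α ≤ A` outside a set of measure `o(1)`.

All this also holds along any sequence of values of `T`.
-/

open MeasureTheory Filter
open Complex (I)

namespace Pool.Agent.Results.MP_00e05b_nt.UpperHalfInMean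

/-- the nontrivial zeros of `ζ` with ordinate in `(0, T]` -/
def zeros (T : ℝ) : Set ℂ :=
  {s : ℂ | 0 < s.re ∧ s.re < 1 ∧ 0 < s.im ∧ s.im ≤ T ∧ riemannZeta s = 0}

/-- the multiplicity of `s` as a zero of `ζ` -/
noncomputable def mult (s : ℂ) : ℕ := analyticOrderNatAt riemannZeta s

/-- `(T / 2π) log T` -/
noncomputable def X (T : ℝ) : ℝ := T / (2 * Real.pi) * Real.log T

/-- Montgomery's function `F(α, T)` -/
noncomputable def F (T α : ℝ) : ℂ :=
  (X T : ℂ)⁻¹ * ∑ᶠ s ∈ zeros T, ∑ᶠ s' ∈ zeros T, (mult s : ℂ) * (mult s' : ℂ) *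
    ((T : ℂ) ^ (I * α * (s.im - s'.im)) * (4 / (4 + (s.im - s'.im) ^ 2)))

/-- the upper bound in the mean, `∫_c^R (F(α, T) - min(α, 1))⁺ dα = o(1)` -/
def UpperMean (l : Filter ℝ) (c R : ℝ) : Prop := ∀ ε : ℝ, 0 < ε → ∀ᶠ T in l,
  ∫ α in c..R, max ((F T α).re - min α 1) 0 ≤ ε

/-- the asymptotics in the mean, `∫_c^R |F(α, T) - min(α, 1)| dα = o(1)` -/
def InMean (l : Filter ℝ) (c R : ℝ) : Prop := ∀ ε : ℝ, 0 < ε → ∀ᶠ T in l,
  ∫ α in c..R, |(F T α).re - min α 1| ≤ ε

/-- the uniform upper bound `F(α, T) ≤ min(α, 1) + o(1)` for `c ≤ α ≤ R` -/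
def UpperUniform (l : Filter ℝ) (c R : ℝ) : Prop := ∀ ε : ℝ, 0 < ε → ∀ᶠ T in l,
  ∀ α : ℝ, c ≤ α → α ≤ R → (F T α).re ≤ min α 1 + ε

open Pool.Agent.Y749.Rig (Fr mn)

lemma F_re {T : ℝ} (hT : 10 ≤ T) (α : ℝ) : (F T α).re = Fr T α := by
  have h : F T α = (Fr T α : ℂ) := Pool.Agent.Y749.Rig.P.F_eq hT α
  rw [h, Complex.ofReal_re]

lemma mn_eq {α : ℝ} (h : 0 ≤ α) : mn α = min α 1 := by
  show min |α| 1 = min α 1
  rw [abs_of_nonneg h]

lemma pos_eq {T c R : ℝ} (hT : 10 ≤ T) (hc : 0 < c) (hR : c ≤ R) :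
    ∫ α in c..R, max ((F T α).re - min α 1) 0 = ∫ α in c..R, max (Fr T α - mn α) 0 := by
  refine intervalIntegral.integral_congr fun α hα => ?_
  rw [Set.uIcc_of_le hR] at hα
  show max ((F T α).re - min α 1) 0 = max (Fr T α - mn α) 0
  rw [F_re hT, mn_eq (by linarith [hα.1])]

lemma abs_eq' {T c R : ℝ} (hT : 10 ≤ T) (hc : 0 < c) (hR : c ≤ R) :
    ∫ α in c..R, |(F T α).re - min α 1| = ∫ α in c..R, |Fr T α - mn α| := by
  refine intervalIntegral.integral_congr fun α hα => ?_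
  rw [Set.uIcc_of_le hR] at hα
  show |(F T α).re - min α 1| = |Fr T α - mn α|
  rw [F_re hT, mn_eq (by linarith [hα.1])]

lemma um_iff {l : Filter ℝ} (hl : l ≤ atTop) {c R : ℝ} (hc : 0 < c) (hR : c ≤ R) :
    UpperMean l c R ↔ Pool.Agent.X113.UH.UM l c R := by
  refine forall_congr' fun ε => forall_congr' fun _ => ?_
  constructor
  · intro h
    filter_upwards [h, hl (eventually_ge_atTop 10)] with T h1 h2
    rwa [pos_eq h2 hc hR] at h1
  · intro h
    filter_upwards [h, hl (eventually_ge_atTop 10)] with T h1 h2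
    rwa [pos_eq h2 hc hR]

/-- **The upper half of the strong pair correlation conjecture gives the conjecture in the mean.** -/
theorem result (hRH : RiemannHypothesis) (l : Filter ℝ) (hl : l ≤ atTop) (c : ℝ) (hc0 : 0 < c)
    (hc1 : c < 1) :
    (∀ R : ℝ, 1 ≤ R → UpperMean l c R → ∀ A : ℝ, c < A → A < R → ∀ ε : ℝ, 0 < ε → ∀ᶠ T in l,
      ∫ α in c..A, |(F T α).re - min α 1| ≤ 1 / (6 * (R - A)) + ε) ∧
    ((∀ R : ℝ, c < R → UpperMean l c R) ↔ ∀ R : ℝ, c < R → InMean l c R) ∧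
    ((∀ R : ℝ, c < R → UpperUniform l c R) → ∀ A η ε : ℝ, 1 ≤ A → 0 < η → 0 < ε → ∀ᶠ T in l,
      volume {α : ℝ | α ∈ Set.Icc 1 A ∧ η < |(F T α).re - 1|} ≤ ENNReal.ofReal ε) := by
  have hmean : (∀ R : ℝ, c < R → UpperMean l c R) → ∀ R : ℝ, c < R → InMean l c R := by
    intro h R hR ε hε
    filter_upwards [Pool.Agent.X113.UH.equiv hRH hl hc0 hc1
      (fun R' hR' => (um_iff hl hc0 hR'.le).1 (h R' hR')) hR hε, hl (eventually_ge_atTop 10)]
      with T h1 h2
    rwa [abs_eq' h2 hc0 hR.le]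
  refine ⟨fun R hR h A hA hAR ε hε => ?_, ⟨hmean, fun h R hR ε hε => ?_⟩, fun h A η ε hA hη hε => ?_⟩
  · filter_upwards [Pool.Agent.X113.UH.main hRH hl hc0 hc1 hA hAR hR
      ((um_iff hl hc0 (by linarith)).1 h) hε, hl (eventually_ge_atTop 10)] with T h1 h2
    rwa [abs_eq' h2 hc0 hA.le]
  · filter_upwards [h R hR ε hε, hl (eventually_ge_atTop 10)] with T h1 h2
    refine le_trans ?_ h1
    rw [pos_eq h2 hc0 hR.le, abs_eq' h2 hc0 hR.le]
    refine intervalIntegral.integral_mono_on hR.le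
      ((Pool.Agent.X113.UH.pos_cont T).intervalIntegrable _ _) ?_ fun α _ => ?_
    · have hc : Continuous fun α => |Fr T α - mn α| :=
        ((Pool.Agent.Y749.Rig.Fr_cont T).sub Pool.Agent.Y749.Rig.mn_cont).abs
      exact hc.intervalIntegrable _ _
    · exact max_le (le_abs_self _) (abs_nonneg _)
  · have h1 : ∀ R : ℝ, c < R → UpperMean l c R := by
      intro R hR e he
      filter_upwards [h R hR (e / (R - c)) (div_pos he (by linarith)),
        hl (eventually_ge_atTop 10)] with T h2 h3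
      rw [pos_eq h3 hc0 hR.le]
      have h4 : ∫ α in c..R, max (Fr T α - mn α) 0 ≤ ∫ α in c..R, e / (R - c) := by
        refine intervalIntegral.integral_mono_on hR.le
          ((Pool.Agent.X113.UH.pos_cont T).intervalIntegrable _ _) (by simp) fun α hα => ?_
        have h5 := h2 α hα.1 hα.2
        rw [F_re h3, ← mn_eq (by linarith [hα.1])] at h5
        exact max_le (by linarith) (div_pos he (by linarith)).le
      rw [intervalIntegral.integral_const, smul_eq_mul] at h4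
      have h6 : (R - c) * (e / (R - c)) = e := by
        have : R - c ≠ 0 := by linarith
        field_simp
      linarith
    have h7 := hmean h1
    have h8 : ∀ A' : ℝ, c < A' → ∀ e : ℝ, 0 < e → ∀ᶠ T in l, ∫ α in c..A', |Fr T α - mn α| ≤ e := by
      intro A' hA' e he
      filter_upwards [h7 A' hA' e he, hl (eventually_ge_atTop 10)] with T g1 g2
      rwa [abs_eq' g2 hc0 hA'.le] at g1
    filter_upwards [Pool.Agent.X113.UH.in_measure hc1 h8 hA hη hε, hl (eventually_ge_atTop 10)]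
      with T g1 g2
    refine le_trans (le_of_eq ?_) g1
    congr 1
    ext α
    constructor
    · rintro ⟨k1, k2⟩
      rw [F_re g2] at k2
      exact ⟨k1, k2⟩
    · rintro ⟨k1, k2⟩
      rw [← F_re g2] at k2
      exact ⟨k1, k2⟩

end Pool.Agent.Results.MP_00e05b_nt.UpperHalfInMean
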