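import Pool.Agent.X117.Mas8

/-!
# The number of `n`-tuples of zeros near the points at which zeta is large

Unconditionally, for `0 < k ≤ 2` and every `n`: if `R` is large, the number of `n`-tuples of zeros at distance at most
`R / log T` from `1/2 + i t`, weighted with `|ζ(1/2 + i t)| ^ (2 k)`, has a mean value over `[T, 2 T]` of the order
`(log T) ^ (k ^ 2)` of the `2k`-th moment; in particular the `t` with at least `n` zeros at this distance contribute a
positive proportion of the moment. Right of the line, the `t ∈ [T, 2 T]` with at most `n` zeros at distance at most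
`κ A / log T` contribute at most `C (2 κ A) ^ (2 n k) exp (- k A / 2) T (log T) ^ (k ^ 2)` to the moment on the line
with real part `1/2 + A / log T`, which is at least `c A ^ (- k ^ 2) T (log T) ^ (k ^ 2)`.
-/

open Filter Topology Complex MeasureTheory

namespace Pool.Agent.Results.MP_00e05b_nt.WeightedTuplesOfZeros

/-- the zeros of zeta at distance at most `x` from `1/2 + i t` -/
def nb (x t : ℝ) : Set ℂ := {z : ℂ | riemannZeta z = 0 ∧ ‖1 / 2 + I * t - z‖ ≤ x}

/-- their number, with multiplicity (`analyticOrderNatAt` is the order of the zero) -/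
noncomputable def cnt (x t : ℝ) : ℕ := ∑ᶠ z ∈ nb x t, analyticOrderNatAt riemannZeta z

/-- the sets in `nb` are finite when they are small and high enough -/
theorem nb_finite {x t : ℝ} (hx : x ≤ 1 / 4) (ht : 1 ≤ t) : (nb x t).Finite :=
  Pool.Agent.X117.SZ.nb_fin hx ht

/-- the mean value of `|ζ(1/2+it)| ^ (2 k)` times the number of `n`-tuples of zeros at distance at most `x / log T` -/
noncomputable def tuples (k : ℝ) (n : ℕ) (x T : ℝ) : ENNReal :=
  ∫⁻ t in Set.Icc T (2 * T), ENNReal.ofReal (‖riemannZeta (1 / 2 + I * t)‖ ^ (2 * k) *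
    ((cnt (x / Real.log T) t).choose n : ℕ))

/-- the contribution to the `2k`-th moment of the `t ∈ [T, 2 T]` with at least `n` zeros at distance at most
`x / log T` from `1/2 + i t` -/
noncomputable def many (k : ℝ) (n : ℕ) (x T : ℝ) : ENNReal :=
  ∫⁻ t in {t : ℝ | T ≤ t ∧ t ≤ 2 * T ∧ n ≤ cnt (x / Real.log T) t},
    ENNReal.ofReal (‖riemannZeta (1 / 2 + I * t)‖ ^ (2 * k))

/-- the contribution to the `2k`-th moment on the line with real part `1/2 + A / log T` of the `t ∈ [T, 2 T]` with at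
most `n` zeros at distance at most `x / log T` from `1/2 + i t` -/
noncomputable def few (k A : ℝ) (n : ℕ) (x T : ℝ) : ENNReal :=
  ∫⁻ t in {t : ℝ | T ≤ t ∧ t ≤ 2 * T ∧ cnt (x / Real.log T) t ≤ n},
    ENNReal.ofReal (‖riemannZeta (((1 / 2 + A / Real.log T : ℝ) : ℂ) + t * I)‖ ^ (2 * k))

/-- the `2k`-th moment on the line with real part `1/2 + A / log T` -/
noncomputable def shifted (k A T : ℝ) : ENNReal :=
  ∫⁻ t in Set.Icc T (2 * T), ENNReal.ofReal (‖riemannZeta (((1 / 2 + A / Real.log T : ℝ) : ℂ) + t * I)‖ ^ (2 * k))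

theorem shifted_ge {k : ℝ} (hk : 0 < k) (hk2 : k ≤ 2) : ∃ c A₀ : ℝ, 0 < c ∧ 1 ≤ A₀ ∧ ∀ A : ℝ, A₀ ≤ A →
    ∀ᶠ T : ℝ in atTop, ENNReal.ofReal (c * A ^ (-(k ^ 2)) * (T * Real.log T ^ (k ^ 2))) ≤ shifted k A T := by
  obtain ⟨c, lam, hc, hlam, h⟩ := Pool.Agent.X117.MS.low_shift hk hk2
  refine ⟨c, lam, hc, hlam, fun A hA => ?_⟩
  filter_upwards [h A hA, Real.tendsto_log_atTop.eventually_ge_atTop (4 * A), eventually_ge_atTop (1 : ℝ)]
    with T hT hL hT1
  have hA0 : 0 < A := by linarith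
  have hL0 : 0 < Real.log T := by linarith
  have hAL : A / Real.log T ≤ 1 / 4 := by
    rw [div_le_div_iff₀ hL0 (by norm_num)]
    linarith
  refine (ENNReal.ofReal_le_ofReal hT).trans ?_
  rw [intervalIntegral.integral_of_le (by linarith), ofReal_integral_eq_lintegral_ofReal]
  · exact lintegral_mono_set fun t ht => ⟨by linarith [ht.1], by linarith [ht.2]⟩
  · have hii : IntervalIntegrable (fun t : ℝ => Pool.Agent.W184.zn (1 / 2 + A / Real.log T) t ^ (2 * k)) volume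
        (5 / 4 * T) (7 / 4 * T) := Pool.Agent.Y496.UP.zn_ii (by linarith) (by linarith)
    exact (intervalIntegrable_iff_integrableOn_Ioc_of_le (by linarith)).1 hii
  · exact Filter.Eventually.of_forall fun t => Real.rpow_nonneg (Pool.Agent.W184.zn_nonneg _ _) _

/-- see the header -/
theorem result (k : ℝ) (hk : 0 < k) (hk2 : k ≤ 2) :
    -- the weighted number of `n`-tuples of zeros
    (∀ n : ℕ, ∃ R₀ : ℝ, 0 < R₀ ∧ ∀ R : ℝ, R₀ ≤ R → ∃ c C : ℝ, 0 < c ∧ 0 < C ∧ ∀ᶠ T : ℝ in atTop,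
      ENNReal.ofReal (c * (T * Real.log T ^ (k ^ 2))) ≤ tuples k n R T ∧
      tuples k n R T ≤ ENNReal.ofReal (C * (T * Real.log T ^ (k ^ 2)))) ∧
    -- the points with `n` zeros nearby
    (∀ n : ℕ, ∃ R c : ℝ, 0 < R ∧ 0 < c ∧ ∀ᶠ T : ℝ in atTop,
      ENNReal.ofReal (c * (T * Real.log T ^ (k ^ 2))) ≤ many k n R T) ∧
    -- right of the line
    (∃ κ C : ℝ, 1 ≤ κ ∧ 0 < C ∧ ∀ A : ℝ, 1 ≤ A → ∀ᶠ T : ℝ in atTop, ∀ n : ℕ,
      few k A n (κ * A) T ≤
        ENNReal.ofReal (C * (2 * κ * A) ^ (2 * n * k) * Real.exp (-(k / 2) * A) * (T * Real.log T ^ (k ^ 2)))) ∧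
    (∃ c A₀ : ℝ, 0 < c ∧ 1 ≤ A₀ ∧ ∀ A : ℝ, A₀ ≤ A → ∀ᶠ T : ℝ in atTop,
      ENNReal.ofReal (c * A ^ (-(k ^ 2)) * (T * Real.log T ^ (k ^ 2))) ≤ shifted k A T) :=
  ⟨fun n => Pool.Agent.X117.MS.tuples hk hk2 n, fun n => Pool.Agent.X117.MS.mass_low hk hk2 n,
    Pool.Agent.X117.MS.few_mass hk hk2, shifted_ge hk hk2⟩

end Pool.Agent.Results.MP_00e05b_nt.WeightedTuplesOfZeros
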